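import Pool.Agent.K1H77.PA.Stm

set_option autoImplicit false

/-!
# Traces are sums of few elements of the group; the number of characters (piece PA15, first part)
-/

namespace Pool.Agent.K1H61.PA

open Module Pool.Agent.K1H77.PA

section

variable {L : Type} [Field L]

/-- `x` is a sum of `r` elements of `G` or zeros -/
def Sm (G : Subgroup Lˣ) (r : ℕ) (x : L) : Prop :=
  ∃ w : Fin r → L, (∀ k, In0 G (w k)) ∧ x = ∑ k, w k

lemma in0_mono {G H : Subgroup Lˣ} (h : G ≤ H) {x : L} (hx : In0 G x) : In0 H x := by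
  rcases hx with hx | ⟨u, hu, rfl⟩
  · exact Or.inl hx
  · exact Or.inr ⟨u, h hu, rfl⟩

lemma in0_mul {G : Subgroup Lˣ} {x y : L} (hx : In0 G x) (hy : In0 G y) : In0 G (x * y) := by
  rcases hx with rfl | ⟨u, hu, rfl⟩
  · left; rw [zero_mul]
  · rcases hy with rfl | ⟨v, hv, rfl⟩
    · left; rw [mul_zero]
    · right; exact ⟨u * v, G.mul_mem hu hv, by simp⟩

lemma Sm.mono {G H : Subgroup Lˣ} (h : G ≤ H) {r : ℕ} {x : L} (hx : Sm G r x) : Sm H r x := by
  obtain ⟨w, h1, h2⟩ := hx
  exact ⟨w, fun k => in0_mono h (h1 k), h2⟩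

lemma Sm.mul {G : Subgroup Lˣ} {r : ℕ} {c x : L} (hc : In0 G c) (hx : Sm G r x) : Sm G r (c * x) := by
  obtain ⟨w, h1, rfl⟩ := hx
  exact ⟨fun k => c * w k, fun k => in0_mul hc (h1 k), by rw [Finset.mul_sum]⟩

lemma Sm.zero (G : Subgroup Lˣ) : Sm G 0 (0 : L) := ⟨fun _ => 0, fun k => k.elim0, by simp⟩

lemma Sm.add {G : Subgroup Lˣ} {r s : ℕ} {x y : L} (hx : Sm G r x) (hy : Sm G s y) :
    Sm G (r + s) (x + y) := by
  obtain ⟨w, h1, rfl⟩ := hx
  obtain ⟨v, h2, rfl⟩ := hy
  refine ⟨Fin.addCases w v, fun k => ?_, ?_⟩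
  · refine Fin.addCases (fun i => ?_) (fun i => ?_) k
    · simpa using h1 i
    · simpa using h2 i
  · rw [Fin.sum_univ_add]
    simp

lemma Sm.sum {G : Subgroup Lˣ} {r : ℕ} (n : ℕ) (f : Fin n → L) (hf : ∀ i, Sm G r (f i)) :
    Sm G (n * r) (∑ i, f i) := by
  induction n with
  | zero => simpa using Sm.zero G
  | succ n ih =>
    rw [Fin.sum_univ_castSucc, Nat.succ_mul]
    exact (ih _ fun i => hf _).add (hf _)

lemma Sm.of_multiset {G : Subgroup Lˣ} {r : ℕ} (m : Multiset L) (hm : m.card = r)
    (h : ∀ x ∈ m, In0 G x) : Sm G r m.sum := by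
  induction m using Multiset.induction_on generalizing r with
  | empty =>
    simp only [Multiset.card_zero] at hm
    subst hm
    simpa using Sm.zero G
  | cons a m ih =>
    rw [Multiset.card_cons] at hm
    subst hm
    rw [Multiset.sum_cons, add_comm a]
    refine (ih rfl fun x hx => h x (Multiset.mem_cons_of_mem hx)).add ?_
    exact ⟨fun _ => a, fun _ => h a (Multiset.mem_cons_self a m), by simp⟩

end

section

variable {L U : Type} [Field L] [IsAlgClosed L] [AddCommGroup U] [Module L U]
  [FiniteDimensional L U] [Nontrivial U]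

/-- traces of elements of `T` -/
lemma Sm.trace (D : TData L U) {t : End L U} (ht : t ∈ D.T) :
    Sm D.G (finrank L U) (LinearMap.trace L U t) := by
  have hs : t.charpoly.Splits := IsAlgClosed.splits _
  rw [Module.End.trace_eq_sum_roots_charpoly_of_splits hs]
  apply Sm.of_multiset
  · rw [Polynomial.splits_iff_card_roots.1 hs, LinearMap.charpoly_natDegree]
  · intro x hx
    apply D.eig t ht
    rw [Module.End.hasEigenvalue_iff_isRoot_charpoly]
    exact (Polynomial.mem_roots'.1 hx).2

/-- the trace form is nondegenerate on `T` -/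
lemma exists_trace_ne {F : End L U} (hF : F ≠ 0) {B : Set (End L U)}
    (hB : Submodule.span L B = ⊤) : ∃ t ∈ B, LinearMap.trace L U (F * t) ≠ 0 := by
  by_contra hcon
  push Not at hcon
  apply hF
  have h1 : B ⊆ LinearMap.ker ((LinearMap.trace L U) ∘ₗ (LinearMap.mulLeft L F)) := by
    intro t ht
    simpa using hcon t ht
  have h2 := Submodule.span_le.2 h1
  rw [hB] at h2
  ext x
  rw [LinearMap.zero_apply, ← Module.forall_dual_apply_eq_zero_iff L]
  intro f
  have h3 := h2 (Submodule.mem_top : f.smulRight x ∈ (⊤ : Submodule L (End L U)))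
  rw [LinearMap.mem_ker, LinearMap.comp_apply, LinearMap.mulLeft_apply] at h3
  have h4 : F * f.smulRight x = f.smulRight (F x) := by
    ext y; simp
  rwa [h4, LinearMap.trace_smulRight] at h3

/-- the number of characters is bounded -/
theorem t_BD (h0 : S_LEMA0) (hp : S_LEMAp) : S_BD := by
  classical
  intro L U _ _ _ _ _ _ D ι _ hfam
  have hL : LEMA L := by
    obtain ⟨p, hpc⟩ := CharP.exists L
    rcases CharP.char_is_prime_or_zero L p with h | h
    · have := Fact.mk h
      exact hp L p
    · subst h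
      have := CharP.charP_to_charZero L
      exact h0 L
  obtain ⟨A, _, χ, F, hG, hNT, hF, hT⟩ := hfam
  set n := finrank L U with hn
  -- a basis in T
  obtain ⟨B, hBT, hBspan, hBli⟩ := exists_linearIndependent L (D.T : Set (End L U))
  have hBtop : Submodule.span L B = ⊤ := by rw [hBspan, D.span]
  have hBfin : B.Finite := hBli.setFinite
  have := hBfin.fintype
  have hBcard : Fintype.card B = n ^ 2 := by
    have h1 := finrank_span_set_eq_card (s := B) hBli
    rw [hBtop, finrank_top, Module.finrank_linearMap, ← hn] at h1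
    rw [← Set.toFinset_card, ← h1, sq]
  have hcov : ∀ i, ∃ t : B, LinearMap.trace L U (F i * t) ≠ 0 := by
    intro i
    obtain ⟨t, ht, h1⟩ := exists_trace_ne (hF i) hBtop
    exact ⟨⟨t, ht⟩, h1⟩
  choose g hg using hcov
  have hfib : ∀ t : B, Fintype.card {i // g i = t} ≤ n := by
    intro t
    have hsub : Fintype.card {i // g i = t}
        ≤ Fintype.card {i // LinearMap.trace L U (F i * (t : End L U)) ≠ 0} := by
      apply Fintype.card_subtype_mono
      intro i hi
      rw [← hi]
      exact hg i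
    refine hsub.trans ?_
    apply hL A D.G D.fg {i // LinearMap.trace L U (F i * (t : End L U)) ≠ 0} (fun i => χ i)
      (fun i => LinearMap.trace L U (F i * (t : End L U))) n (fun i a => hG _ _)
      (fun i j hij => hNT _ _ (fun h => hij (Subtype.ext h))) (fun i => i.2)
    intro a
    obtain ⟨w, hw1, hw2⟩ := Sm.trace D (D.T.mul_mem (hT a) (hBT t.2))
    refine ⟨w, hw1, ?_⟩
    rw [← hw2, Finset.sum_mul, map_sum]
    rw [← Finset.sum_subtype (Finset.univ.filter fun i => LinearMap.trace L U (F i * (t : End L U)) ≠ 0)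
      (by simp) (fun i => LinearMap.trace L U (F i * (t : End L U)) * (χ i a : L)),
      Finset.sum_filter_of_ne]
    · refine Finset.sum_congr rfl fun i _ => ?_
      rw [smul_mul_assoc, map_smul, smul_eq_mul, mul_comm]
    · intro i _ h1 h2
      exact h1 (by rw [h2, zero_mul])
  calc Fintype.card ι = ∑ t : B, Fintype.card {i // g i = t} := by
        rw [← Fintype.card_sigma]
        exact Fintype.card_congr (Equiv.sigmaFiberEquiv g).symm
    _ ≤ ∑ _t : B, n := Finset.sum_le_sum fun t _ => hfib t
    _ = n ^ 3 := by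
        rw [Finset.sum_const, Finset.card_univ, hBcard, smul_eq_mul]
        ring

end

end Pool.Agent.K1H61.PA
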