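import Pool.Agent.K1H77.PA.Stm

set_option autoImplicit false

/-!
# The decomposition given by a maximal family (piece PA14)
-/

namespace Pool.Agent.K1H61.PA

open Module Pool.Agent.K1H77.PA

section

variable {L U : Type} [Field L] [AddCommGroup U] [Module L U]

/-- reindexing a family -/
lemma Fam.congr {D : TData L U} {ι κ : Type} [Fintype ι] [Fintype κ] (h : Fam D ι) (e : κ ≃ ι) :
    Fam D κ := by
  obtain ⟨A, _, χ, F, h1, h2, h3, h4⟩ := h
  refine ⟨A, inferInstance, fun k => χ (e k), fun k => F (e k), fun i a => h1 _ a,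
    fun i j hij => h2 _ _ (fun h => hij (e.injective h)), fun i => h3 _, fun a => ?_⟩
  rw [e.sum_comp (fun i => (χ i a : L) • F i)]
  exact h4 a

/-- a relation of size at most `N` with surjective projections is the graph of a bijection -/
lemma exists_equiv {N : ℕ} (r : Fin N → Fin N → Prop)
    (hc : Nat.card {p : Fin N × Fin N // r p.1 p.2} ≤ N) (h1 : ∀ i, ∃ j, r i j) (h2 : ∀ j, ∃ i, r i j) :
    ∃ e : Fin N ≃ Fin N, ∀ i j, r i j → i = e j := by
  classical
  have hs1 : Function.Surjective (fun p : {p : Fin N × Fin N // r p.1 p.2} => p.1.1) := by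
    intro i
    obtain ⟨j, hj⟩ := h1 i
    exact ⟨⟨(i, j), hj⟩, rfl⟩
  have hs2 : Function.Surjective (fun p : {p : Fin N × Fin N // r p.1 p.2} => p.1.2) := by
    intro j
    obtain ⟨i, hi⟩ := h2 j
    exact ⟨⟨(i, j), hi⟩, rfl⟩
  have hcard : Nat.card {p : Fin N × Fin N // r p.1 p.2} = Nat.card (Fin N) := by
    apply le_antisymm
    · simpa using hc
    · exact Nat.card_le_card_of_surjective _ hs1
  have hb1 := (Nat.bijective_iff_surjective_and_card _).2 ⟨hs1, hcard⟩
  have hb2 := (Nat.bijective_iff_surjective_and_card _).2 ⟨hs2, hcard⟩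
  refine ⟨(Equiv.ofBijective _ hb2).symm.trans (Equiv.ofBijective _ hb1), fun i j hr => ?_⟩
  have : (Equiv.ofBijective _ hb2).symm j = ⟨(i, j), hr⟩ := by
    rw [Equiv.symm_apply_eq]
    rfl
  rw [Equiv.trans_apply, this]
  rfl

/-- the character of the product -/
def chi2 {A : Type} [CommMonoid A] (χ χ' : A →* Lˣ) : A × A →* Lˣ where
  toFun p := χ p.1 * χ' p.2
  map_one' := by simp
  map_mul' p q := by
    simp only [Prod.fst_mul, Prod.snd_mul, map_mul]
    exact mul_mul_mul_comm _ _ _ _

lemma NT_chi2 {A ι : Type} [CommMonoid A] (χ : ι → (A →* Lˣ)) (h : ∀ i j, i ≠ j → NT (χ i) (χ j))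
    (p q : ι × ι) (hpq : p ≠ q) : NT (chi2 (χ p.1) (χ p.2)) (chi2 (χ q.1) (χ q.2)) := by
  intro m hm he
  by_cases h1 : p.1 = q.1
  · have h2 : p.2 ≠ q.2 := fun h2 => hpq (Prod.ext h1 h2)
    apply h p.2 q.2 h2 m hm
    ext a
    have := DFunLike.congr_fun he ((1 : A), a)
    simp only [MonoidHom.pow_apply, chi2, MonoidHom.coe_mk, OneHom.coe_mk, map_one, one_mul] at this
    rw [MonoidHom.pow_apply, MonoidHom.pow_apply, this]
  · apply h p.1 q.1 h1 m hm
    ext a
    have := DFunLike.congr_fun he (a, (1 : A))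
    simp only [MonoidHom.pow_apply, chi2, MonoidHom.coe_mk, OneHom.coe_mk, map_one, mul_one] at this
    rw [MonoidHom.pow_apply, MonoidHom.pow_apply, this]

/-- the family of the products -/
lemma exists_perm {D : TData L U} {N : ℕ} (hmax : ∀ n, Fam D (Fin n) → n ≤ N)
    {A : Type} [CommMonoid A] {χ : Fin N → (A →* Lˣ)} {F : Fin N → End L U}
    (hG : ∀ i a, χ i a ∈ D.G) (hNT : ∀ i j, i ≠ j → NT (χ i) (χ j)) (hF : ∀ i, F i ≠ 0)
    (hT : ∀ a, ∑ i, (χ i a : L) • F i ∈ D.T) {t : End L U} (ht : t ∈ D.T) :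
    ∃ e : Fin N ≃ Fin N, ∀ i j, F i * t * F j ≠ 0 → i = e j := by
  classical
  have h0 : ∑ i, F i ∈ D.T := by
    have := hT 1
    simpa using this
  have hu0 : IsUnit (∑ i, F i) := D.unit _ h0
  have hut : IsUnit t := D.unit _ ht
  apply exists_equiv (fun i j => F i * t * F j ≠ 0)
  · have hfam : Fam D {p : Fin N × Fin N // F p.1 * t * F p.2 ≠ 0} := by
      refine ⟨A × A, inferInstance, fun p => chi2 (χ p.1.1) (χ p.1.2), fun p => F p.1.1 * t * F p.1.2,
        ?_, ?_, fun p => p.2, ?_⟩
      · intro i a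
        exact D.G.mul_mem (hG _ _) (hG _ _)
      · intro p q hpq
        exact NT_chi2 χ hNT p.1 q.1 (fun h => hpq (Subtype.ext h))
      · rintro ⟨a, b⟩
        have h5 : ∑ p : {p : Fin N × Fin N // F p.1 * t * F p.2 ≠ 0},
            ((chi2 (χ p.1.1) (χ p.1.2) (a, b) : Lˣ) : L) • (F p.1.1 * t * F p.1.2)
            = (∑ i, (χ i a : L) • F i) * t * ∑ j, (χ j b : L) • F j := by
          rw [Finset.sum_mul, Finset.sum_mul_sum, ← Fintype.sum_prod_type',
            ← Finset.sum_subtype (Finset.univ.filter fun p : Fin N × Fin N => F p.1 * t * F p.2 ≠ 0)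
              (by simp) (fun p : Fin N × Fin N =>
                ((chi2 (χ p.1) (χ p.2) (a, b) : Lˣ) : L) • (F p.1 * t * F p.2)),
            Finset.sum_filter_of_ne]
          · refine Finset.sum_congr rfl fun p _ => ?_
            simp only [chi2, MonoidHom.coe_mk, OneHom.coe_mk, Units.val_mul, smul_mul_assoc,
              mul_smul_comm, smul_smul]
            rw [mul_comm]
          · intro p _ hp h
            apply hp
            rw [h, smul_zero]
        rw [h5]
        exact D.T.mul_mem (D.T.mul_mem (hT a) ht) (hT b)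
    have := hmax _ (Fam.congr hfam (Fintype.equivFin _).symm)
    rwa [Nat.card_eq_fintype_card]
  · intro i
    by_contra hcon
    push Not at hcon
    apply hF i
    have h6 : F i * t * ∑ j, F j = 0 := by
      rw [Finset.mul_sum]
      exact Finset.sum_eq_zero fun j _ => hcon j
    rw [hu0.mul_left_eq_zero, hut.mul_left_eq_zero] at h6
    exact h6
  · intro j
    by_contra hcon
    push Not at hcon
    apply hF j
    have h6 : (∑ i, F i) * (t * F j) = 0 := by
      rw [Finset.sum_mul]
      exact Finset.sum_eq_zero fun i _ => by rw [← mul_assoc]; exact hcon i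
    rw [hu0.mul_right_eq_zero, hut.mul_right_eq_zero] at h6
    exact h6

/-- the decomposition given by a family with the largest number of characters -/
theorem t_DEC : S_DEC := by
  classical
  intro L U _ _ _ _ _ _ D N hfam hmax
  obtain ⟨A, _, χ, F, hG, hNT, hF, hT⟩ := hfam
  have h0 : ∑ i, F i ∈ D.T := by
    have := hT 1
    simpa using this
  have hu0 : IsUnit (∑ i, F i) := D.unit _ h0
  have hbij : Function.Bijective (∑ i, F i : End L U) := (Module.End.isUnit_iff _).1 hu0
  set R : Fin N → Submodule L U := fun i => ⨅ (i' : Fin N) (_ : i' ≠ i), LinearMap.ker (F i') with hR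
  have hmemR : ∀ i x, x ∈ R i ↔ ∀ i', i' ≠ i → F i' x = 0 := by
    intro i x
    simp only [hR, Submodule.mem_iInf, LinearMap.mem_ker]
  -- a vector killed by all the `F i` is zero
  have hker : ∀ x, (∀ i, F i x = 0) → x = 0 := by
    intro x hx
    apply hbij.1
    rw [map_zero, LinearMap.sum_apply]
    exact Finset.sum_eq_zero fun i _ => hx i
  -- independence
  have hind : iSupIndep R := by
    rw [iSupIndep_def]
    intro i
    rw [Submodule.disjoint_def]
    intro x hx1 hx2
    apply hker
    intro i'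
    by_cases hi : i' = i
    · subst hi
      have hle : (⨆ (j : Fin N) (_ : j ≠ i'), R j) ≤ LinearMap.ker (F i') := by
        refine iSup₂_le fun j hj => ?_
        exact iInf₂_le i' hj.symm
      exact hle hx2
    · exact (hmemR i x).1 hx1 i' hi
  -- the sum of the ranges
  have hrange : (⨆ j, LinearMap.range (F j)) = ⊤ := by
    rw [eq_top_iff]
    intro x _
    obtain ⟨y, rfl⟩ := hbij.2 x
    rw [LinearMap.sum_apply]
    exact Submodule.sum_mem _ fun j _ => Submodule.mem_iSup_of_mem j ⟨y, rfl⟩
  -- the images of the ranges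
  have hmap : ∀ t ∈ D.T, ∃ e : Fin N ≃ Fin N, ∀ j, (LinearMap.range (F j)).map t = R (e j) := by
    intro t ht
    obtain ⟨e, he⟩ := exists_perm hmax hG hNT hF hT ht
    have hle : ∀ j, (LinearMap.range (F j)).map t ≤ R (e j) := by
      rintro j _ ⟨_, ⟨y, rfl⟩, rfl⟩
      rw [hmemR]
      intro i' hi'
      by_contra hne
      apply hi'
      apply he
      intro h
      apply hne
      have := LinearMap.congr_fun h y
      simpa using this
    have htop : (⨆ j, (LinearMap.range (F j)).map t) = ⊤ := by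
      rw [← Submodule.map_iSup, hrange, Submodule.map_top, LinearMap.range_eq_top]
      exact ((Module.End.isUnit_iff _).1 (D.unit _ ht)).2
    refine ⟨e, fun j => le_antisymm (hle j) ?_⟩
    have h1 : R (e j) ≤ (LinearMap.range (F j)).map t ⊔ ⨆ (k : Fin N) (_ : k ≠ e j), R k := by
      calc R (e j) ≤ ⨆ j, (LinearMap.range (F j)).map t := by rw [htop]; exact le_top
        _ ≤ _ := by
          refine iSup_le fun k => ?_
          by_cases hk : k = j
          · subst hk; exact le_sup_left
          · refine le_trans (hle k) (le_trans ?_ le_sup_right)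
            exact le_iSup₂_of_le (e k) (fun h => hk (e.injective h)) le_rfl
    have h2 : ((LinearMap.range (F j)).map t ⊔ ⨆ (k : Fin N) (_ : k ≠ e j), R k) ⊓ R (e j)
        = (LinearMap.range (F j)).map t := by
      rw [sup_inf_assoc_of_le _ (hle j), inf_comm, ((iSupIndep_def.1 hind) (e j)).eq_bot, sup_bot_eq]
    rw [← h2]
    exact le_inf h1 le_rfl
  obtain ⟨e₀, he₀⟩ := hmap _ h0
  refine ⟨R, ?_, ?_, ?_⟩
  · rw [DirectSum.isInternal_submodule_iff_iSupIndep_and_iSup_eq_top]
    refine ⟨hind, ?_⟩
    rw [eq_top_iff]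
    calc (⊤ : Submodule L U) = (⨆ j, LinearMap.range (F j)).map (∑ i, F i) := by
          rw [hrange, Submodule.map_top, LinearMap.range_eq_top.2 hbij.2]
      _ ≤ ⨆ i, R i := by
          rw [Submodule.map_iSup]
          exact iSup_le fun j => (he₀ j).le.trans (le_iSup R (e₀ j))
  · intro i hi
    have h1 := he₀ (e₀.symm i)
    rw [Equiv.apply_symm_apply, hi] at h1
    apply hF (e₀.symm i)
    ext x
    have h2 : (∑ i, F i : End L U) (F (e₀.symm i) x) ∈
        (LinearMap.range (F (e₀.symm i))).map (∑ i, F i) :=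
      Submodule.mem_map_of_mem (LinearMap.mem_range_self _ x)
    rw [h1, Submodule.mem_bot] at h2
    have := hbij.1 (h2.trans (map_zero _).symm)
    rw [this]; rfl
  · intro t ht i
    obtain ⟨e, he⟩ := hmap _ (D.T.mul_mem ht h0)
    refine ⟨e (e₀.symm i), ?_⟩
    rw [← he, ← e₀.apply_symm_apply i, ← he₀, e₀.apply_symm_apply, ← Submodule.map_comp]
    rfl

end

end Pool.Agent.K1H61.PA
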