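import Pool.Agent.K1H61.PA.Bd
import Pool.Agent.K1H61.PA.Dec

set_option autoImplicit false

/-!
# Powers of one element (piece PA15, second part)
-/

namespace Pool.Agent.K1H61.PA

open Module Pool.Agent.K1H77.PA

/-- the torsion of a finitely generated commutative group has an exponent -/
lemma exists_exponent {L : Type} [Field L] (G : Subgroup Lˣ) (hG : G.FG) :
    ∃ e : ℕ, 1 ≤ e ∧ ∀ x ∈ G, (∃ m : ℕ, 1 ≤ m ∧ x ^ m = 1) → x ^ e = 1 := by
  have hfg : Module.Finite ℤ (Additive G) := by
    have : Group.FG G := (Group.fg_iff_subgroup_fg G).2 hG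
    exact Module.Finite.iff_addGroup_fg.mpr inferInstance
  have hnoeth : IsNoetherian ℤ (Additive G) := isNoetherian_of_isNoetherianRing_of_finite ℤ _
  let Tt : Submodule ℤ (Additive G) := Submodule.torsion ℤ (Additive G)
  have hfin : Finite Tt := by
    have : Module.Finite ℤ Tt := inferInstance
    apply Module.finite_of_fg_torsion
    exact Submodule.torsion_isTorsion
  refine ⟨Nat.card Tt, Nat.card_pos, fun x hx hm => ?_⟩
  obtain ⟨m, hm1, hm2⟩ := hm
  have hmem : (Additive.ofMul (⟨x, hx⟩ : G)) ∈ Tt := by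
    rw [Submodule.mem_torsion_iff]
    refine ⟨⟨(m : ℤ), mem_nonZeroDivisors_of_ne_zero (by omega)⟩, ?_⟩
    show (m : ℤ) • Additive.ofMul (⟨x, hx⟩ : G) = 0
    rw [natCast_zsmul, ← ofMul_pow]
    apply Additive.toMul.injective
    simp only [toMul_ofMul, toMul_zero]
    exact Subtype.ext hm2
  have h1 : Nat.card Tt • (⟨Additive.ofMul (⟨x, hx⟩ : G), hmem⟩ : Tt) = 0 := card_nsmul_eq_zero'
  have h2 : (⟨x, hx⟩ : G) ^ Nat.card Tt = 1 := by
    apply Additive.ofMul.injective
    rw [ofMul_pow, ofMul_one]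
    exact congrArg Subtype.val h1
  exact congrArg Subtype.val h2

section

variable {L U : Type} [Field L] [IsAlgClosed L] [AddCommGroup U] [Module L U]
  [FiniteDimensional L U]

/-- no Jordan blocks -/
def Dg (τ : End L U) : Prop := ∀ (c : L) (u : U), ((τ - c • (1 : End L U)) ^ 2) u = 0 → (τ - c • (1 : End L U)) u = 0

lemma Dg.pow {τ : End L U} (h : Dg τ) (c : L) (k : ℕ) (u : U) (hu : ((τ - c • (1 : End L U)) ^ k) u = 0) :
    (τ - c • (1 : End L U)) u = 0 := by
  induction k generalizing u with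
  | zero =>
    rw [pow_zero, Module.End.one_apply] at hu
    rw [hu, map_zero]
  | succ k ih =>
    rw [pow_succ, Module.End.mul_apply] at hu
    have h1 := ih _ hu
    apply h
    rw [pow_two, Module.End.mul_apply]
    exact h1

lemma Dg.top {τ : End L U} (h : Dg τ) : ⨆ c, τ.eigenspace c = ⊤ := by
  rw [eq_top_iff, ← Module.End.iSup_maxGenEigenspace_eq_top τ]
  refine iSup_mono fun c u hu => ?_
  rw [Module.End.mem_maxGenEigenspace] at hu
  obtain ⟨k, hk⟩ := hu
  have := h.pow c k u hk
  rw [Module.End.mem_eigenspace_iff]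
  rw [LinearMap.sub_apply, sub_eq_zero, LinearMap.smul_apply, Module.End.one_apply] at this
  exact this

/-- characteristic `p` -/
lemma Dg.charp (p : ℕ) [Fact p.Prime] [CharP L p] (σ : End L U) :
    Dg (σ ^ p ^ finrank L U) := by
  set q := p ^ finrank L U with hq
  have hqpos : 0 < q := by have := (Fact.out : p.Prime).pos; positivity
  have hqn : finrank L U ≤ q := (Nat.lt_pow_self (Fact.out : p.Prime).one_lt).le
  intro c u hu
  rcases subsingleton_or_nontrivial U with hs | hn
  · exact Subsingleton.elim _ _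
  have hchar : CharP (End L U) p := charP_of_injective_algebraMap (algebraMap L (End L U)).injective p
  obtain ⟨d, hd⟩ := IsAlgClosed.exists_pow_nat_eq c hqpos
  have h1 : σ ^ q - c • (1 : End L U) = (σ - d • 1) ^ q := by
    have hcom : Commute σ (d • (1 : End L U)) := (Commute.one_right σ).smul_right d
    rw [hq, sub_pow_char_pow_of_commute p _ hcom, ← hq, smul_pow, one_pow, hd]
  rw [h1] at hu ⊢
  have h2 : u ∈ σ.maxGenEigenspace d := by
    rw [Module.End.mem_maxGenEigenspace]
    exact ⟨q * 2, by rw [pow_mul]; exact hu⟩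
  rw [Module.End.maxGenEigenspace_eq_genEigenspace_finrank, Module.End.mem_genEigenspace_nat,
    LinearMap.mem_ker] at h2
  obtain ⟨r, hr⟩ := Nat.exists_eq_add_of_le' hqn
  rw [hr, pow_add, Module.End.mul_apply, h2, map_zero]

lemma pow_mem_T (D : TData L U) {τ t : End L U} (hτ : τ ∈ D.T) (ht : t ∈ D.T) (k : ℕ) :
    τ ^ k * t ∈ D.T := by
  induction k with
  | zero => rwa [pow_zero, one_mul]
  | succ k ih =>
    rw [pow_succ', mul_assoc]
    exact D.T.mul_mem hτ ih

/-- characteristic zero -/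
lemma Dg.char0 [Nontrivial U] [CharZero L] (hL : LEMA L) (D : TData L U) {τ : End L U} (hτ : τ ∈ D.T) :
    Dg τ := by
  classical
  intro c u hu
  by_contra hne
  set u1 := (τ - c • (1 : End L U)) u with hu1
  have e1 : τ u = c • u + u1 := by
    rw [hu1, LinearMap.sub_apply, LinearMap.smul_apply, Module.End.one_apply]
    abel
  have e2 : τ u1 = c • u1 := by
    rw [pow_two, Module.End.mul_apply, ← hu1, LinearMap.sub_apply, LinearMap.smul_apply,
      Module.End.one_apply, sub_eq_zero] at hu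
    exact hu
  have hinj : Function.Injective τ := ((Module.End.isUnit_iff _).1 (D.unit _ hτ)).1
  have hc0 : c ≠ 0 := by
    rintro rfl
    apply hne
    apply hinj
    rw [e2, zero_smul, map_zero]
  have heig : τ.HasEigenvalue c :=
    Module.End.hasEigenvalue_of_hasEigenvector ⟨Module.End.mem_eigenspace_iff.2 e2, hne⟩
  obtain ⟨g, hg, hgc⟩ : ∃ g ∈ D.G, (g : L) = c := by
    rcases D.eig τ hτ c heig with h | h
    · exact absurd h hc0
    · exact h
  obtain ⟨ξ0, hξ0⟩ : ∃ ξ : Dual L U, ξ u1 ≠ 0 := by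
    by_contra hcon
    push Not at hcon
    exact hne ((Module.forall_dual_apply_eq_zero_iff L u1).1 hcon)
  set ξ : Dual L U := (ξ0 u1)⁻¹ • ξ0 with hξ
  have hξ1 : ξ u1 = 1 := by
    rw [hξ, LinearMap.smul_apply, smul_eq_mul, inv_mul_cancel₀ hξ0]
  set v := u - ξ u • u1 with hv
  have hξv : ξ v = 0 := by
    rw [hv, map_sub, map_smul, hξ1, smul_eq_mul, mul_one, sub_self]
  have e3 : τ v = c • v + u1 := by
    rw [hv, map_sub, map_smul, e1, e2, smul_sub, smul_comm c (ξ u) u1]
    abel
  have e4 : ∀ k : ℕ, c • (τ ^ k) v = c ^ (k + 1) • v + ((k : L) * c ^ k) • u1 := by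
    intro k
    induction k with
    | zero => simp
    | succ k ih =>
      rw [pow_succ', Module.End.mul_apply, ← map_smul, ih, map_add, map_smul, map_smul, e3, e2]
      simp only [smul_add, smul_smul]
      rw [add_assoc, ← add_smul, ← pow_succ]
      congr 2
      push_cast
      ring
  have e5 : ∀ k : ℕ, (k : L) = c * ((g⁻¹ : Lˣ) : L) ^ k * ξ ((τ ^ k) v) := by
    intro k
    have h := congrArg ξ (e4 k)
    rw [map_smul, map_add, map_smul, map_smul, hξv, hξ1, smul_zero, zero_add, smul_eq_mul, smul_eq_mul,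
      mul_one] at h
    rw [mul_right_comm, h, Units.val_inv_eq_inv_val, hgc, mul_assoc, ← mul_pow, mul_inv_cancel₀ hc0,
      one_pow, mul_one]
  have hY : ξ.smulRight v ∈ Submodule.span L (D.T : Set (End L U)) := by
    rw [D.span]; exact Submodule.mem_top
  rw [Submodule.mem_span_set'] at hY
  obtain ⟨N, f, t, hft⟩ := hY
  have e6 : ∀ k : ℕ, ξ ((τ ^ k) v) = ∑ i, f i * LinearMap.trace L U (τ ^ k * (t i : End L U)) := by
    intro k
    have h1 : τ ^ k * ξ.smulRight v = ξ.smulRight ((τ ^ k) v) := by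
      ext y; simp
    rw [← LinearMap.trace_smulRight, ← h1, ← hft, Finset.mul_sum, map_sum]
    refine Finset.sum_congr rfl fun i _ => ?_
    rw [mul_smul_comm, map_smul, smul_eq_mul]
  have h2 : (2 : L) ≠ 0 := two_ne_zero
  set S : Set Lˣ := {x | (x : L) = 2 ∨ ∃ i, (x : L) = f i} with hS
  have hSfin : S.Finite := by
    apply Set.Finite.subset ((Set.Finite.union (Set.finite_singleton (2 : L))
      (Set.finite_range f)).preimage (f := fun x : Lˣ => (x : L)) (Units.val_injective.injOn))
    intro x hx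
    rcases hx with hx | ⟨i, hx⟩
    · left; exact hx
    · right; exact ⟨i, hx.symm⟩
  set G2 : Subgroup Lˣ := D.G ⊔ Subgroup.closure S with hG2
  have hG2fg : G2.FG := D.fg.sup ((Subgroup.fg_iff _).2 ⟨S, rfl, hSfin⟩)
  have hle : D.G ≤ G2 := le_sup_left
  have hSle : ∀ x ∈ S, x ∈ G2 := fun x hx => (le_sup_right : Subgroup.closure S ≤ G2)
    (Subgroup.subset_closure hx)
  have hfi : ∀ i, In0 G2 (f i) := by
    intro i
    by_cases h : f i = 0
    · exact Or.inl h
    · exact Or.inr ⟨Units.mk0 (f i) h, hSle _ (Or.inr ⟨i, rfl⟩), rfl⟩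
  set two : Lˣ := Units.mk0 2 h2 with htwo
  have htwoG : two ∈ G2 := hSle _ (Or.inl rfl)
  set n := finrank L U with hn
  have hsm : ∀ k : ℕ, Sm G2 (N * n) (k : L) := by
    intro k
    rw [e5 k, e6 k]
    apply Sm.mul
    · apply in0_mul
      · exact Or.inr ⟨g, hle hg, hgc⟩
      · exact Or.inr ⟨g⁻¹ ^ k, hle (D.G.pow_mem (D.G.inv_mem hg) k), by simp⟩
    · apply Sm.sum
      intro i
      exact Sm.mul (hfi i) (Sm.mono hle (Sm.trace D (pow_mem_T D hτ (t i).2 k)))
  let χ : Fin (N * n + 1) → (Multiplicative (Fin (N * n + 1) → ℕ) →* Lˣ) := fun l =>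
    { toFun := fun m => two ^ (Multiplicative.toAdd m l)
      map_one' := by simp
      map_mul' := fun a b => by simp [pow_add] }
  have hfinal := hL (Multiplicative (Fin (N * n + 1) → ℕ)) G2 hG2fg (Fin (N * n + 1)) χ (fun _ => 1)
    (N * n) (fun l m => G2.pow_mem htwoG _) ?_ (fun _ => one_ne_zero) ?_
  · rw [Fintype.card_fin] at hfinal
    omega
  · intro l l' hll m hm he
    have h3 := DFunLike.congr_fun he (Multiplicative.ofAdd (Pi.single l 1))
    simp only [MonoidHom.pow_apply, χ, MonoidHom.coe_mk, OneHom.coe_mk, toAdd_ofAdd, Pi.single_eq_same,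
      Pi.single_eq_of_ne (Ne.symm hll), pow_zero, one_pow, pow_one] at h3
    have h4 := congrArg (fun x : Lˣ => (x : L)) h3
    simp only [Units.val_pow_eq_pow_val, Units.val_one, htwo, Units.val_mk0] at h4
    have h5 : (2 : ℕ) ^ m = 1 := by exact_mod_cast h4
    have h6 : 1 < 2 ^ m := Nat.one_lt_two_pow (by omega)
    omega
  · intro m
    obtain ⟨w, hw1, hw2⟩ := hsm (∑ l, 2 ^ (Multiplicative.toAdd m l))
    refine ⟨w, hw1, ?_⟩
    rw [← hw2]
    push_cast
    refine Finset.sum_congr rfl fun l _ => ?_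
    simp [χ, htwo]

lemma eig_unit [Nontrivial U] (D : TData L U) {τ : End L U} (hτ : τ ∈ D.T) {c : L}
    (hc : τ.HasEigenvalue c) : ∃ g ∈ D.G, (g : L) = c := by
  rcases D.eig τ hτ c hc with h | h
  · exfalso
    subst h
    obtain ⟨x, hx⟩ := hc.exists_hasEigenvector
    have hinj : Function.Injective τ := ((Module.End.isUnit_iff _).1 (D.unit _ hτ)).1
    apply hx.2
    apply hinj
    rw [hx.apply_eq_smul, zero_smul, map_zero]
  · exact h

/-- the eigenvalues -/
abbrev EV (τ : End L U) : Type := {c : L // τ.HasEigenvalue c}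

lemma spec_core [Nontrivial U] (D : TData L U) {e : ℕ}
    (he : ∀ x ∈ D.G, (∃ m : ℕ, 1 ≤ m ∧ x ^ m = 1) → x ^ e = 1) {M : ℕ} (hM : 1 ≤ M) (heM : e ∣ M)
    {s : End L U} (hs : s ∈ D.T) (hd : Dg (s ^ M)) :
    ∃ n : ℕ, Fam D (Fin n) ∧ (n = 1 → ∃ c : L, s ^ M = c • 1) := by
  classical
  set τ := s ^ M with hτdef
  have hfin : Finite (EV τ) := (Module.End.finite_hasEigenvalue τ).to_subtype
  have hft : Fintype (EV τ) := Fintype.ofFinite _
  have hpow : ∀ k, τ ^ (k + 1) ∈ D.T := by
    intro k
    have h1 : τ ^ (k + 1) = s ^ (M * (k + 1) - 1) * s := by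
      rw [hτdef, ← pow_mul, ← pow_succ]
      congr 1
      have : 1 ≤ M * (k + 1) := Nat.mul_pos (by omega) (by omega)
      omega
    rw [h1]
    exact pow_mem_T D hs hs _
  have hτ : τ ∈ D.T := by simpa using hpow 0
  have hex : ∀ c : EV τ, ∃ g ∈ D.G, (g : L) = (c : L) := fun c => eig_unit D hτ c.2
  choose g hg hgc using hex
  -- ratios of different eigenvalues are not torsion
  have hNT : ∀ c c' : EV τ, ∀ m : ℕ, 1 ≤ m → g c ^ m = g c' ^ m → c = c' := by
    intro c c' m hm h
    have h1 : ∀ c : EV τ, ∃ a ∈ D.G, (a : L) ^ M = (c : L) := by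
      intro c
      have h2 : (c : L) ∈ spectrum L (s ^ M) := Module.End.hasEigenvalue_iff_mem_spectrum.1 c.2
      rw [spectrum.map_pow_of_pos s (by omega : 0 < M)] at h2
      obtain ⟨a, ha, hac⟩ := h2
      obtain ⟨g, hg, hga⟩ := eig_unit D hs (Module.End.hasEigenvalue_iff_mem_spectrum.2 ha)
      exact ⟨g, hg, by rw [hga]; exact hac⟩
    obtain ⟨a, ha, hac⟩ := h1 c
    obtain ⟨b, hb, hbc⟩ := h1 c'
    have h3 : (a / b) ^ (M * m) = 1 := by
      have h4 : g c = a ^ M := by
        apply Units.ext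
        rw [hgc, Units.val_pow_eq_pow_val, hac]
      have h5 : g c' = b ^ M := by
        apply Units.ext
        rw [hgc, Units.val_pow_eq_pow_val, hbc]
      rw [h4, h5, ← pow_mul, ← pow_mul] at h
      rw [div_pow, h, div_self']
    have h6 := he (a / b) (D.G.div_mem ha hb) ⟨M * m, Nat.mul_pos (by omega) (by omega), h3⟩
    obtain ⟨r, hr⟩ := heM
    have h7 : (a / b) ^ M = 1 := by rw [hr, pow_mul, h6, one_pow]
    rw [div_pow, div_eq_one] at h7
    apply Subtype.ext
    have h8 : (c : L) = (c' : L) := by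
      rw [← hac, ← hbc]
      exact_mod_cast congrArg (fun x : Lˣ => (x : L)) h7
    exact h8
  -- the projections
  set π : EV τ → End L U := fun c =>
    Polynomial.aeval τ (Lagrange.basis Finset.univ (fun i : EV τ => (i : L)) c) with hπ
  have hinj : Set.InjOn (fun i : EV τ => (i : L)) (Finset.univ : Finset (EV τ)) :=
    fun a _ b _ h => Subtype.ext h
  have hπx : ∀ (c : EV τ) (c' : L) (x : U), τ.HasEigenvector c' x →
      π c x = (if (c : L) = c' then (1 : L) else 0) • x := by
    intro c c' x hx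
    rw [hπ]
    simp only
    rw [Module.End.aeval_apply_of_hasEigenvector hx]
    congr 1
    have hc' : τ.HasEigenvalue c' := Module.End.hasEigenvalue_of_hasEigenvector hx
    split_ifs with h
    · rw [← h]
      exact Lagrange.eval_basis_self hinj (Finset.mem_univ c)
    · have h1 : c ≠ ⟨c', hc'⟩ := fun h1 => h (by rw [h1])
      exact Lagrange.eval_basis_of_ne (v := fun i : EV τ => (i : L)) h1 (Finset.mem_univ (⟨c', hc'⟩ : EV τ))
  have htop := hd.top
  have hsum : ∀ m : ℕ, ∑ c : EV τ, ((g c : Lˣ) : L) ^ m • ((c : L) • π c) = τ ^ (m + 1) := by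
    intro m
    have h1 : (⊤ : Submodule L U) ≤ LinearMap.eqLocus
        (∑ c : EV τ, ((g c : Lˣ) : L) ^ m • ((c : L) • π c)) (τ ^ (m + 1)) := by
      rw [← htop]
      refine iSup_le fun c' x hx => ?_
      rw [LinearMap.mem_eqLocus]
      by_cases hx0 : x = 0
      · rw [hx0, map_zero, map_zero]
      have hev : τ.HasEigenvector c' x := ⟨hx, hx0⟩
      rw [hev.pow_apply, LinearMap.sum_apply]
      have hc' : τ.HasEigenvalue c' := Module.End.hasEigenvalue_of_hasEigenvector hev
      rw [Finset.sum_eq_single (⟨c', hc'⟩ : EV τ)]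
      · rw [LinearMap.smul_apply, LinearMap.smul_apply, hπx _ c' x hev, if_pos rfl, one_smul,
          smul_smul, hgc, pow_succ]
      · intro c _ hc
        rw [LinearMap.smul_apply, LinearMap.smul_apply, hπx _ c' x hev, if_neg, zero_smul, smul_zero,
          smul_zero]
        exact fun h => hc (Subtype.ext h)
      · intro h; exact absurd (Finset.mem_univ _) h
    ext x
    exact h1 Submodule.mem_top
  have hfam : Fam D (EV τ) := by
    refine ⟨Multiplicative ℕ, inferInstance, fun c => powersHom Lˣ (g c), fun c => (c : L) • π c,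
      fun c m => ?_, fun c c' hcc m hm h => ?_, fun c h => ?_, fun m => ?_⟩
    · rw [powersHom_apply]
      exact D.G.pow_mem (hg c) _
    · apply hcc
      apply hNT c c' m hm
      have := DFunLike.congr_fun h (Multiplicative.ofAdd 1)
      simpa [powersHom_apply] using this
    · obtain ⟨x, hx⟩ := c.2.exists_hasEigenvector
      have h1 := LinearMap.congr_fun h x
      rw [LinearMap.smul_apply, hπx c _ x hx, if_pos rfl, one_smul, LinearMap.zero_apply] at h1
      rcases smul_eq_zero.1 h1 with h2 | h2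
      · have := (g c).ne_zero
        rw [hgc] at this
        exact this h2
      · exact hx.2 h2
    · have h1 := hsum (Multiplicative.toAdd m)
      have h2 := hpow (Multiplicative.toAdd m)
      rw [← h1] at h2
      simpa [powersHom_apply] using h2
  refine ⟨Fintype.card (EV τ), Fam.congr hfam (Fintype.equivFin _).symm, fun h1 => ?_⟩
  obtain ⟨c, hc⟩ := Fintype.card_eq_one_iff.1 h1
  refine ⟨(c : L), ?_⟩
  have h2 : (⊤ : Submodule L U) ≤ τ.eigenspace c := by
    rw [← htop]
    refine iSup_le fun c' x hx => ?_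
    by_cases hx0 : x = 0
    · rw [hx0]; exact Submodule.zero_mem _
    have hev : τ.HasEigenvector c' x := ⟨hx, hx0⟩
    have hc' : τ.HasEigenvalue c' := Module.End.hasEigenvalue_of_hasEigenvector hev
    have h3 := hc ⟨c', hc'⟩
    rw [← h3]
    exact hx
  ext x
  have := Module.End.mem_eigenspace_iff.1 (h2 (Submodule.mem_top (x := x)))
  rw [this, LinearMap.smul_apply, Module.End.one_apply]

end

/-- powers of one element -/
theorem t_SPEC (h0 : S_LEMA0) : S_SPEC := by
  intro L U _ _ _ _ _ _ D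
  obtain ⟨e, he1, he⟩ := exists_exponent D.G D.fg
  obtain ⟨p, hpc⟩ := CharP.exists L
  rcases CharP.char_is_prime_or_zero L p with h | h
  · have := Fact.mk h
    have hpos : 1 ≤ p ^ finrank L U := Nat.pos_of_ne_zero (pow_ne_zero _ h.ne_zero)
    refine ⟨e * p ^ finrank L U, Nat.mul_pos he1 hpos, fun s hs => ?_⟩
    apply spec_core D he (Nat.mul_pos he1 hpos) (Dvd.intro _ rfl) hs
    rw [pow_mul]
    exact Dg.charp p (s ^ e)
  · subst h
    have := CharP.charP_to_charZero L
    refine ⟨e, he1, fun s hs => ?_⟩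
    apply spec_core D he he1 dvd_rfl hs
    apply Dg.char0 (h0 L) D
    have h1 : s ^ e = s ^ (e - 1) * s := by
      rw [← pow_succ, Nat.sub_add_cancel he1]
    rw [h1]
    exact pow_mem_T D hs hs _

end Pool.Agent.K1H61.PA
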